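import Pool.Agent.X275.BN.Merge

/-!
# Broadcasts on arbitrary (possibly disconnected) finite graphs (MP_2a7bed_co)

In Mathlib `G.dist u v = 0` if `u` and `v` are in different components, so reachability is a part of all
definitions.
-/

open SimpleGraph Finset

namespace Pool.Agent.X275.BN

variable {V : Type*} [Fintype V]

/-- A broadcast on a possibly disconnected graph (a union of broadcasts on the components):
`f v ≤ e(v)` (the eccentricity in the component of `v`) if the component of `v` has another vertex, and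
`f v = 1` if `v` is isolated. As `G.dist v u = 0` for `u` in another component, `ecc G v` is the
eccentricity of `v` in its component. -/
def IsBroadcastA (G : SimpleGraph V) (f : V → ℕ) : Prop :=
  ∀ v, ((∃ u, u ≠ v ∧ G.Reachable v u) → f v ≤ ecc G v) ∧
    ((∀ u, G.Reachable v u → u = v) → f v = 1)

/-- `x` hears `f` from the broadcasting vertex `u`. -/
def HearsA (G : SimpleGraph V) (f : V → ℕ) (x u : V) : Prop :=
  0 < f u ∧ G.Reachable x u ∧ G.dist x u ≤ f u

/-- Boundary independence: if `x` hears `f` from two different vertices then `d(x,w) ≥ f w` for every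
broadcasting vertex `w` (there is nothing to prove if `w` is in another component, where the distance
is infinite). -/
def BnIndepA (G : SimpleGraph V) (f : V → ℕ) : Prop :=
  ∀ x u v, u ≠ v → HearsA G f x u → HearsA G f x v → ∀ w, 0 < f w → G.Reachable x w →
    f w ≤ G.dist x w

/-- Hearing independence: no broadcasting vertex hears `f` from another broadcasting vertex. -/
def HIndepA (G : SimpleGraph V) (f : V → ℕ) : Prop :=
  ∀ u v, 0 < f u → HearsA G f u v → u = v

/-- Maximal boundary independent broadcasts. -/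
def MaxBnA (G : SimpleGraph V) (f : V → ℕ) : Prop :=
  IsBroadcastA G f ∧ BnIndepA G f ∧
    ∀ g : V → ℕ, IsBroadcastA G g → BnIndepA G g → (∀ v, f v ≤ g v) → g = f

/-- Maximal hearing independent broadcasts. -/
def MaxHA (G : SimpleGraph V) (f : V → ℕ) : Prop :=
  IsBroadcastA G f ∧ HIndepA G f ∧
    ∀ g : V → ℕ, IsBroadcastA G g → HIndepA G g → (∀ v, f v ≤ g v) → g = f

/-- `i_bn(G)`: the minimum cost of a maximal boundary independent broadcast. -/
noncomputable def ibnA (G : SimpleGraph V) : ℕ := sInf {k | ∃ f : V → ℕ, MaxBnA G f ∧ ∑ v, f v = k}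

/-- `i_h(G)`: the minimum cost of a maximal hearing independent broadcast. -/
noncomputable def ihA (G : SimpleGraph V) : ℕ := sInf {k | ∃ f : V → ℕ, MaxHA G f ∧ ∑ v, f v = k}

/-! ### Existence of maximal objects -/

lemma exists_maximal_above (P : (V → ℕ) → Prop) (b : V → ℕ) (hb : ∀ f, P f → ∀ v, f v ≤ b v) :
    ∀ (n : ℕ) (f : V → ℕ), P f → ∑ v, b v - ∑ v, f v = n →
      ∃ g : V → ℕ, P g ∧ ∀ h : V → ℕ, P h → (∀ v, g v ≤ h v) → h = g := by
  intro n
  induction n using Nat.strong_induction_on with
  | _ n ih =>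
  intro f hf hn
  by_cases hmax : ∀ h : V → ℕ, P h → (∀ v, f v ≤ h v) → h = f
  · exact ⟨f, hf, hmax⟩
  · push Not at hmax
    obtain ⟨h, hh, hle, hne⟩ := hmax
    have hlt : ∑ v, f v < ∑ v, h v := by
      refine Finset.sum_lt_sum (fun v _ => hle v) ?_
      by_contra hcon
      push Not at hcon
      exact hne (funext fun v => le_antisymm (hcon v (mem_univ v)) (hle v))
    have hb' : ∑ v, h v ≤ ∑ v, b v := Finset.sum_le_sum (fun v _ => hb h hh v)
    exact ih (∑ v, b v - ∑ v, h v) (by omega) h hh rfl

lemma broadcast_bound {G : SimpleGraph V} {f : V → ℕ} (hf : IsBroadcastA G f) (v : V) :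
    f v ≤ ecc G v + 1 := by
  by_cases h : ∃ u, u ≠ v ∧ G.Reachable v u
  · exact ((hf v).1 h).trans (Nat.le_succ _)
  · push Not at h
    rw [(hf v).2 (fun u hu => by by_contra hne; exact h u hne hu)]
    omega

open Classical in
/-- The broadcast which is `1` on isolated vertices and `0` elsewhere. -/
noncomputable def iso (G : SimpleGraph V) : V → ℕ := fun v =>
  if ∀ u, G.Reachable v u → u = v then 1 else 0

lemma iso_broadcast (G : SimpleGraph V) : IsBroadcastA G (iso G) := by
  intro v
  refine ⟨fun h => ?_, fun h => ?_⟩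
  · obtain ⟨u, hu, hr⟩ := h
    have : ¬ ∀ u, G.Reachable v u → u = v := fun h' => hu (h' u hr)
    simp [iso, this]
  · simp only [iso]
    rw [if_pos h]

lemma iso_hears {G : SimpleGraph V} {x u : V} (h : HearsA G (iso G) x u) : x = u := by
  have h1 := h.1
  simp only [iso] at h1
  by_contra hne
  split_ifs at h1 with h2
  · exact hne (h2 x h.2.1.symm)
  · exact absurd h1 (lt_irrefl 0)

lemma exists_maxBnA (G : SimpleGraph V) : ∃ f : V → ℕ, MaxBnA G f := by
  obtain ⟨g, ⟨h1, h2⟩, h3⟩ := exists_maximal_above (fun f => IsBroadcastA G f ∧ BnIndepA G f)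
    (fun v => ecc G v + 1) (fun f hf v => broadcast_bound hf.1 v) _ (iso G)
    ⟨iso_broadcast G, fun x u v huv hu hv => absurd ((iso_hears hu).symm.trans (iso_hears hv)) huv⟩
    rfl
  exact ⟨g, h1, h2, fun h ha hb hc => h3 h ⟨ha, hb⟩ hc⟩

lemma exists_maxHA (G : SimpleGraph V) : ∃ f : V → ℕ, MaxHA G f := by
  obtain ⟨g, ⟨h1, h2⟩, h3⟩ := exists_maximal_above (fun f => IsBroadcastA G f ∧ HIndepA G f)
    (fun v => ecc G v + 1) (fun f hf v => broadcast_bound hf.1 v) _ (iso G)
    ⟨iso_broadcast G, fun u v _ h => iso_hears h⟩ rfl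
  exact ⟨g, h1, h2, fun h ha hb hc => h3 h ⟨ha, hb⟩ hc⟩

/-! ### Maximal hearing independent broadcasts dominate and overlap -/

lemma dist_tri {G : SimpleGraph V} {a b c : V} (h : G.Reachable a b) :
    G.dist a c ≤ G.dist a b + G.dist b c := by
  by_cases hbc : G.Reachable b c
  · obtain ⟨p, hp⟩ := h.exists_walk_length_eq_dist
    obtain ⟨q, hq⟩ := hbc.exists_walk_length_eq_dist
    rw [← hp, ← hq, ← Walk.length_append]
    exact dist_le _
  · rw [dist_eq_zero_of_not_reachable (fun hac => hbc (h.symm.trans hac))]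
    exact Nat.zero_le _

lemma MaxHA.dom [DecidableEq V] {G : SimpleGraph V} {f : V → ℕ} (hf : MaxHA G f) :
    ∀ x, ∃ u, HearsA G f x u := by
  intro x
  by_contra hx
  push Not at hx
  have hx0 : f x = 0 := by
    by_contra h
    exact hx x ⟨Nat.pos_of_ne_zero h, Reachable.refl _, by simp⟩
  have hiso : ∃ u, u ≠ x ∧ G.Reachable x u := by
    by_contra h
    push Not at h
    have := (hf.1 x).2 (fun u hu => by by_contra hne; exact h u hne hu)
    omega
  have hg := hf.2.2 (Function.update f x 1) ?_ ?_ ?_
  · have := congrFun hg x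
    rw [Function.update_self, hx0] at this
    exact one_ne_zero this
  · intro v
    by_cases hv : v = x
    · subst hv
      rw [Function.update_self]
      refine ⟨fun _ => ?_, fun _ => rfl⟩
      obtain ⟨y, hy, hr⟩ := hiso
      exact (hr.pos_dist_of_ne hy.symm).trans_le (dist_le_ecc G v y)
    · rw [Function.update_of_ne hv]; exact hf.1 v
  · intro u v hu hv
    by_contra huv
    by_cases hvx : v = x
    · subst hvx
      have hux : u ≠ v := huv
      rw [Function.update_of_ne hux] at hu
      obtain ⟨-, h2, h3⟩ := hv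
      rw [Function.update_self] at h3
      exact hx u ⟨hu, h2.symm, by rw [G.dist_comm]; omega⟩
    · have hv' : HearsA G f u v := by simpa [HearsA, Function.update_of_ne hvx] using hv
      by_cases hux : u = x
      · subst hux; exact hx v hv'
      · rw [Function.update_of_ne hux] at hu
        exact huv (hf.2.1 u v hu hv')
  · intro v
    by_cases hv : v = x
    · subst hv; rw [Function.update_self, hx0]; exact Nat.zero_le _
    · rw [Function.update_of_ne hv]

lemma MaxHA.ovl [DecidableEq V] {G : SimpleGraph V} {f : V → ℕ} (hf : MaxHA G f) (u : V)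
    (hu : 0 < f u) :
    (∃ v, v ≠ u ∧ 0 < f v ∧ G.Reachable u v ∧ G.dist u v ≤ f u + f v) ∨
      (∀ v, 0 < f v → G.Reachable u v → v = u) := by
  by_contra hcon
  push Not at hcon
  obtain ⟨hfar, v1, hv1, hr1, hv1u⟩ := hcon
  have hg := hf.2.2 (Function.update f u (f u + 1)) ?_ ?_ ?_
  · have := congrFun hg u
    rw [Function.update_self] at this
    omega
  · intro v
    by_cases hv : v = u
    · subst hv
      rw [Function.update_self]
      refine ⟨fun _ => ?_, fun h => absurd (h v1 hr1) hv1u⟩
      have h1 := hfar v1 hv1u hv1 hr1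
      have h2 := dist_le_ecc G v v1
      omega
    · rw [Function.update_of_ne hv]; exact hf.1 v
  · intro a b ha hb
    by_contra hab
    by_cases hbu : b = u
    · subst hbu
      have hab' : a ≠ b := hab
      rw [Function.update_of_ne hab'] at ha
      obtain ⟨-, h2, h3⟩ := hb
      rw [Function.update_self] at h3
      have h4 := hfar a hab' ha h2.symm
      rw [G.dist_comm] at h4
      omega
    · have hb' : HearsA G f a b := by simpa [HearsA, Function.update_of_ne hbu] using hb
      by_cases hau : a = u
      · subst hau; exact hab (hf.2.1 a b hu hb')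
      · rw [Function.update_of_ne hau] at ha
        exact hab (hf.2.1 a b ha hb')
  · intro v
    by_cases hv : v = u
    · subst hv; rw [Function.update_self]; omega
    · rw [Function.update_of_ne hv]

/-! ### Components -/

omit [Fintype V] in
lemma exists_walk_comp {G : SimpleGraph V} (C : G.ConnectedComponent) {u v : V} (p : G.Walk u v) :
    ∀ (hu : u ∈ C) (hv : v ∈ C), ∃ q : C.toSimpleGraph.Walk ⟨u, hu⟩ ⟨v, hv⟩,
      q.length = p.length := by
  induction p with
  | nil => intro hu hv; exact ⟨Walk.nil, rfl⟩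
  | cons h p ih =>
    intro hu hv
    have hw := C.mem_supp_of_adj_mem_supp hu h
    obtain ⟨q, hq⟩ := ih hw hv
    have h' : C.toSimpleGraph.Adj ⟨_, hu⟩ ⟨_, hw⟩ := h
    exact ⟨Walk.cons h' q, by simp [hq]⟩

omit [Fintype V] in
lemma dist_comp {G : SimpleGraph V} (C : G.ConnectedComponent) (x y : C) :
    C.toSimpleGraph.dist x y = G.dist x.1 y.1 := by
  apply le_antisymm
  · obtain ⟨p, hp⟩ := (C.reachable_of_mem_supp x.2 y.2).exists_walk_length_eq_dist
    obtain ⟨q, hq⟩ := exists_walk_comp C p x.2 y.2
    rw [← hp, ← hq]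
    exact dist_le q
  · obtain ⟨p, hp⟩ := C.connected_toSimpleGraph.exists_walk_length_eq_dist x y
    rw [← hp, ← Walk.length_map C.toSimpleGraph_hom p]
    exact dist_le _

end Pool.Agent.X275.BN
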