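import Mathlib

/-!
# Boundary independent broadcasts: definitions and basic facts (MP_7de179_co)
-/

open SimpleGraph Finset

namespace Pool.Agent.X275.BN

variable {V : Type*} [Fintype V] [DecidableEq V]

/-- The eccentricity of a vertex. -/
noncomputable def ecc (G : SimpleGraph V) (v : V) : ℕ := univ.sup (fun u => G.dist v u)

/-- A broadcast: `f v ≤ e(v)` for all vertices if there are at least two vertices, and `f v = 1` if `v`
is the only vertex. (As `e(v) ≤ diam G`, the values are at most `diam G` when there are at least two
vertices.) -/
def IsBroadcast (G : SimpleGraph V) (f : V → ℕ) : Prop :=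
  (Nontrivial V → ∀ v, f v ≤ ecc G v) ∧ (Subsingleton V → ∀ v, f v = 1)

/-- The vertex `x` hears `f` from the broadcasting vertex `u`. -/
def Hears (G : SimpleGraph V) (f : V → ℕ) (x u : V) : Prop := 0 < f u ∧ G.dist x u ≤ f u

/-- Boundary independence: if `x` hears `f` from two different vertices then `d(x,w) ≥ f w` for all
broadcasting vertices `w`. -/
def BnIndep (G : SimpleGraph V) (f : V → ℕ) : Prop :=
  ∀ x u v, u ≠ v → Hears G f x u → Hears G f x v → ∀ w, 0 < f w → f w ≤ G.dist x w

/-- Maximal boundary independent broadcasts. -/
def MaxBn (G : SimpleGraph V) (f : V → ℕ) : Prop :=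
  IsBroadcast G f ∧ BnIndep G f ∧
    ∀ g : V → ℕ, IsBroadcast G g → BnIndep G g → (∀ v, f v ≤ g v) → g = f

/-- The lower bn-independence broadcast number: the minimum cost of a maximal bn-independent
broadcast. -/
noncomputable def ibn (G : SimpleGraph V) : ℕ := sInf {k | ∃ f : V → ℕ, MaxBn G f ∧ ∑ v, f v = k}

/-- Domination. -/
def Dom (G : SimpleGraph V) (f : V → ℕ) : Prop := ∀ x, ∃ u, Hears G f x u

/-- Overlap: every broadcasting vertex has another broadcasting vertex close to it, unless it is the
only one. -/
def Ovl (G : SimpleGraph V) (f : V → ℕ) : Prop :=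
  ∀ u, 0 < f u → (∃ v, v ≠ u ∧ 0 < f v ∧ G.dist u v ≤ f u + f v) ∨ (∀ v, 0 < f v → v = u)

omit [Fintype V] [DecidableEq V] in
lemma exists_between {G : SimpleGraph V} (hG : G.Connected) (u v : V) (k : ℕ)
    (hk : k ≤ G.dist u v) : ∃ w, G.dist u w = k ∧ G.dist w v + k = G.dist u v := by
  obtain ⟨p, hp⟩ := hG.exists_walk_length_eq_dist u v
  refine ⟨p.getVert k, ?_⟩
  have h1 : G.dist u (p.getVert k) ≤ k := by
    refine (dist_le (p.take k)).trans ?_
    rw [Walk.take_length]; exact min_le_left _ _
  have h2 : G.dist (p.getVert k) v ≤ G.dist u v - k := by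
    refine (dist_le (p.drop k)).trans ?_
    rw [Walk.drop_length, hp]
  have h3 := hG.dist_triangle (u := u) (v := p.getVert k) (w := v)
  omega

omit [Fintype V] [DecidableEq V] in
lemma dist_mono {G T : SimpleGraph V} (h : T ≤ G) (hT : T.Connected) (u v : V) :
    G.dist u v ≤ T.dist u v := by
  obtain ⟨p, hp⟩ := hT.exists_walk_length_eq_dist u v
  have := dist_le (p.mapLe h)
  simpa [hp] using this

omit [DecidableEq V] in
lemma dist_le_ecc (G : SimpleGraph V) (v u : V) : G.dist v u ≤ ecc G v :=
  Finset.le_sup (f := fun u => G.dist v u) (mem_univ u)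

omit [DecidableEq V] in
lemma ecc_le {G : SimpleGraph V} {v : V} {k : ℕ} (h : ∀ u, G.dist v u ≤ k) : ecc G v ≤ k :=
  Finset.sup_le (fun u _ => h u)

omit [Fintype V] [DecidableEq V] in
/-- Domination and overlap are inherited from spanning subgraphs. -/
lemma Dom.mono {G T : SimpleGraph V} (h : T ≤ G) (hT : T.Connected) {f : V → ℕ} (hf : Dom T f) :
    Dom G f := fun x => by
  obtain ⟨u, hu, hd⟩ := hf x
  exact ⟨u, hu, (dist_mono h hT x u).trans hd⟩

omit [Fintype V] [DecidableEq V] in
lemma Ovl.mono {G T : SimpleGraph V} (h : T ≤ G) (hT : T.Connected) {f : V → ℕ} (hf : Ovl T f) :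
    Ovl G f := fun u hu => by
  rcases hf u hu with ⟨v, h1, h2, h3⟩ | h4
  · exact Or.inl ⟨v, h1, h2, (dist_mono h hT u v).trans h3⟩
  · exact Or.inr h4

/-- A maximal bn-independent broadcast is dominating. -/
lemma MaxBn.dom {G : SimpleGraph V} (hG : G.Connected) [Nontrivial V] {f : V → ℕ}
    (hf : MaxBn G f) : Dom G f := by
  by_contra hcon
  simp only [Dom, not_forall, not_exists] at hcon
  obtain ⟨x, hx⟩ := hcon
  have hx0 : f x = 0 := by
    by_contra h
    exact hx x ⟨Nat.pos_of_ne_zero h, by simp⟩
  have hg := hf.2.2 (Function.update f x 1) ?_ ?_ ?_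
  · have := congrFun hg x
    rw [Function.update_self, hx0] at this
    exact one_ne_zero this
  · refine ⟨fun _ v => ?_, fun hs => absurd hs (not_subsingleton V)⟩
    by_cases hv : v = x
    · subst hv
      rw [Function.update_self]
      obtain ⟨y, hy⟩ := exists_ne v
      exact (hG.pos_dist_of_ne hy.symm).trans_le (dist_le_ecc G v y)
    · rw [Function.update_of_ne hv]; exact hf.1.1 inferInstance v
  · -- reduction to hearing in f
    have key : ∀ y a, a ≠ x → Hears G (Function.update f x 1) y a → Hears G f y a := by
      intro y a ha h
      simpa [Hears, Function.update_of_ne ha] using h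
    intro y a b hab ha hb w hw
    by_cases hwx : w = x
    · subst hwx
      rw [Function.update_self]
      by_contra hlt
      have h0 : G.dist y w = 0 := by omega
      have hyw : y = w := (hG.dist_eq_zero_iff).1 h0
      subst hyw
      by_cases hay : a = y
      · have hby : b ≠ y := fun h => hab (hay.trans h.symm)
        exact hx b (key y b hby hb)
      · exact hx a (key y a hay ha)
    · rw [Function.update_of_ne hwx] at hw ⊢
      by_contra hlt
      push Not at hlt
      have hcase : ∀ c, c = x → Hears G (Function.update f x 1) y c → False := by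
        intro c hc h
        subst hc
        have h1 : G.dist y c ≤ 1 := by simpa [Hears] using h.2
        have h2 := hG.dist_triangle (u := c) (v := y) (w := w)
        rw [G.dist_comm (u := c) (v := y)] at h2
        exact hx w ⟨hw, by omega⟩
      by_cases hax : a = x
      · exact hcase a hax ha
      by_cases hbx : b = x
      · exact hcase b hbx hb
      have := hf.2.1 y a b hab (key y a hax ha) (key y b hbx hb) w hw
      omega
  · intro v
    by_cases hv : v = x
    · subst hv; rw [Function.update_self, hx0]; exact Nat.zero_le _
    · rw [Function.update_of_ne hv]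

/-- A maximal bn-independent broadcast has the overlap property. -/
lemma MaxBn.ovl {G : SimpleGraph V} (hG : G.Connected) [Nontrivial V] {f : V → ℕ}
    (hf : MaxBn G f) : Ovl G f := by
  intro u hu
  by_contra hcon
  push Not at hcon
  obtain ⟨hfar, v1, hv1, hv1u⟩ := hcon
  have hg := hf.2.2 (Function.update f u (f u + 1)) ?_ ?_ ?_
  · have := congrFun hg u
    rw [Function.update_self] at this
    omega
  · refine ⟨fun _ v => ?_, fun hs => absurd hs (not_subsingleton V)⟩
    by_cases hv : v = u
    · subst hv
      rw [Function.update_self]
      have h1 := hfar v1 hv1u hv1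
      have h2 := dist_le_ecc G v v1
      omega
    · rw [Function.update_of_ne hv]; exact hf.1.1 inferInstance v
  · have key : ∀ y a, a ≠ u → Hears G (Function.update f u (f u + 1)) y a → Hears G f y a := by
      intro y a ha h
      simpa [Hears, Function.update_of_ne ha] using h
    intro y a b hab ha hb w hw
    by_cases hwu : w = u
    · subst hwu
      rw [Function.update_self]
      by_contra hlt
      have hle : G.dist y w ≤ f w := by omega
      have hcase : ∀ c, c ≠ w → Hears G (Function.update f w (f w + 1)) y c → False := by
        intro c hc h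
        have h' := key y c hc h
        have h1 := hfar c hc h'.1
        have h2 := hG.dist_triangle (u := w) (v := y) (w := c)
        rw [G.dist_comm (u := w) (v := y)] at h2
        have h3 := h'.2
        omega
      by_cases haw : a = w
      · exact hcase b (fun h => hab (haw.trans h.symm)) hb
      · exact hcase a haw ha
    · rw [Function.update_of_ne hwu] at hw ⊢
      by_contra hlt
      push Not at hlt
      have hcase : ∀ c, c = u → Hears G (Function.update f u (f u + 1)) y c → False := by
        intro c hc h
        subst hc
        have h1 : G.dist y c ≤ f c + 1 := by simpa [Hears] using h.2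
        have h2 := hG.dist_triangle (u := c) (v := y) (w := w)
        rw [G.dist_comm (u := c) (v := y)] at h2
        have h3 := hfar w hwu hw
        omega
      by_cases hau : a = u
      · exact hcase a hau ha
      by_cases hbu : b = u
      · exact hcase b hbu hb
      have := hf.2.1 y a b hab (key y a hau ha) (key y b hbu hb) w hw
      omega
  · intro v
    by_cases hv : v = u
    · subst hv; rw [Function.update_self]; omega
    · rw [Function.update_of_ne hv]

end Pool.Agent.X275.BN
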