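import Pool.Agent.X275.BN.All

/-!
# Gluing over the components
-/

open SimpleGraph Finset

namespace Pool.Agent.X275.BN

variable {V : Type*} [Fintype V]

omit [Fintype V] in
lemma mem_of_reach {G : SimpleGraph V} {C : G.ConnectedComponent} {x u : V} (hx : x ∈ C)
    (h : G.Reachable x u) : u ∈ C := by
  have h1 : G.connectedComponentMk x = C := hx
  have h2 : G.connectedComponentMk u = C := by
    rw [← h1]; exact ConnectedComponent.sound h.symm
  exact h2

open Classical in
lemma ecc_comp {G : SimpleGraph V} (C : G.ConnectedComponent) (x : C) :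
    ecc C.toSimpleGraph x = ecc G x.1 := by
  apply le_antisymm
  · refine ecc_le (fun u => ?_)
    rw [dist_comp]
    exact dist_le_ecc G x.1 u.1
  · refine ecc_le (fun u => ?_)
    by_cases h : G.Reachable x.1 u
    · have := dist_le_ecc C.toSimpleGraph x ⟨u, mem_of_reach x.2 h⟩
      rwa [dist_comp] at this
    · rw [dist_eq_zero_of_not_reachable h]
      exact Nat.zero_le _

open Classical in
lemma broadcast_comp {G : SimpleGraph V} {h : V → ℕ} (hh : IsBroadcastA G h)
    (C : G.ConnectedComponent) : IsBroadcast C.toSimpleGraph (fun x : C => h x.1) := by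
  refine ⟨fun hn v => ?_, fun hs v => ?_⟩
  · rw [ecc_comp]
    obtain ⟨u, hu⟩ := exists_ne v
    exact (hh v.1).1 ⟨u.1, fun h => hu (Subtype.ext h), C.reachable_of_mem_supp v.2 u.2⟩
  · refine (hh v.1).2 (fun u hu => ?_)
    have := Subsingleton.elim (⟨u, mem_of_reach v.2 hu⟩ : C) v
    exact congrArg Subtype.val this

open Classical in
lemma broadcast_of_comp {G : SimpleGraph V} {h : V → ℕ}
    (hh : ∀ C : G.ConnectedComponent, IsBroadcast C.toSimpleGraph (fun x : C => h x.1)) :
    IsBroadcastA G h := by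
  intro v
  have hv : v ∈ G.connectedComponentMk v := rfl
  refine ⟨fun hu => ?_, fun hu => ?_⟩
  · obtain ⟨u, hne, hr⟩ := hu
    have hn : Nontrivial (G.connectedComponentMk v) :=
      ⟨⟨⟨v, hv⟩, ⟨u, mem_of_reach hv hr⟩, fun h => hne (congrArg Subtype.val h).symm⟩⟩
    have := (hh (G.connectedComponentMk v)).1 hn ⟨v, hv⟩
    rwa [ecc_comp] at this
  · have hs : Subsingleton (G.connectedComponentMk v) := by
      refine ⟨fun a b => ?_⟩
      have ha := hu a.1 ((G.connectedComponentMk v).reachable_of_mem_supp hv a.2)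
      have hb := hu b.1 ((G.connectedComponentMk v).reachable_of_mem_supp hv b.2)
      exact Subtype.ext (ha.trans hb.symm)
    exact (hh (G.connectedComponentMk v)).2 hs ⟨v, hv⟩

omit [Fintype V] in
lemma bn_comp {G : SimpleGraph V} {h : V → ℕ} (hh : BnIndepA G h) (C : G.ConnectedComponent) :
    BnIndep C.toSimpleGraph (fun x : C => h x.1) := by
  intro x u v huv hu hv w hw
  have r := fun (a b : C) => C.reachable_of_mem_supp a.2 b.2
  obtain ⟨hu1, hu2⟩ := hu
  obtain ⟨hv1, hv2⟩ := hv
  rw [dist_comp] at hu2 hv2 ⊢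
  exact hh x.1 u.1 v.1 (fun h => huv (Subtype.ext h)) ⟨hu1, r x u, hu2⟩ ⟨hv1, r x v, hv2⟩ w.1 hw
    (r x w)

omit [Fintype V] in
lemma bn_of_comp {G : SimpleGraph V} {h : V → ℕ}
    (hh : ∀ C : G.ConnectedComponent, BnIndep C.toSimpleGraph (fun x : C => h x.1)) :
    BnIndepA G h := by
  intro x u v huv hu hv w hw hr
  have hx : x ∈ G.connectedComponentMk x := rfl
  have := hh (G.connectedComponentMk x) ⟨x, hx⟩ ⟨u, mem_of_reach hx hu.2.1⟩
    ⟨v, mem_of_reach hx hv.2.1⟩ (fun h => huv (congrArg Subtype.val h))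
    ⟨hu.1, by rw [dist_comp]; exact hu.2.2⟩ ⟨hv.1, by rw [dist_comp]; exact hv.2.2⟩
    ⟨w, mem_of_reach hx hr⟩ hw
  rwa [dist_comp] at this

open Classical in
lemma sum_comp (G : SimpleGraph V) (h : V → ℕ) :
    ∑ x, h x = ∑ C : G.ConnectedComponent, ∑ x : C, h x.1 := by
  rw [← Finset.sum_fiberwise univ (fun x => G.connectedComponentMk x) h]
  refine Finset.sum_congr rfl (fun C _ => ?_)
  refine Finset.sum_subtype _ (fun x => ?_) h
  simp only [mem_filter, mem_univ, true_and]
  exact Iff.rfl

open Classical in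
/-- From a dominating function with the overlap property on a possibly disconnected graph we get a
maximal bn-independent broadcast of at most the same cost. -/
lemma exists_maxBnA_le {G : SimpleGraph V} {f : V → ℕ} (hD : ∀ x, ∃ u, HearsA G f x u)
    (hO : ∀ u, 0 < f u → (∃ v, v ≠ u ∧ 0 < f v ∧ G.Reachable u v ∧ G.dist u v ≤ f u + f v) ∨
      (∀ v, 0 < f v → G.Reachable u v → v = u)) :
    ∃ g : V → ℕ, MaxBnA G g ∧ ∑ x, g x ≤ ∑ x, f x := by
  have hcomp : ∀ C : G.ConnectedComponent, ∃ g : C → ℕ, MaxBn C.toSimpleGraph g ∧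
      ∑ x, g x ≤ ∑ x : C, f x.1 := by
    intro C
    rcases subsingleton_or_nontrivial C with hC | hC
    · refine ⟨fun _ => 1, ⟨⟨fun h => absurd h (not_nontrivial C), fun _ _ => rfl⟩, ?_, ?_⟩, ?_⟩
      · intro x u v huv
        exact absurd (Subsingleton.elim u v) huv
      · intro g hg _ _
        funext v
        exact hg.2 hC v
      · refine Finset.sum_le_sum (fun x _ => ?_)
        obtain ⟨u, hu0, hur, -⟩ := hD x.1
        have := congrArg Subtype.val (Subsingleton.elim (⟨u, mem_of_reach x.2 hur⟩ : C) x)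
        simp only at this
        rw [this] at hu0
        exact hu0
    · refine exists_maxBn C.connected_toSimpleGraph _ (fun x : C => f x.1) rfl ?_ ?_
      · intro x
        obtain ⟨u, hu0, hur, hud⟩ := hD x.1
        exact ⟨⟨u, mem_of_reach x.2 hur⟩, hu0, by rw [dist_comp]; exact hud⟩
      · intro u hu
        rcases hO u.1 hu with ⟨v, hvu, hv0, hr, hd⟩ | hall
        · exact Or.inl ⟨⟨v, mem_of_reach u.2 hr⟩, fun h => hvu (congrArg Subtype.val h), hv0,
            by rw [dist_comp]; exact hd⟩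
        · exact Or.inr fun v hv => Subtype.ext (hall v.1 hv (C.reachable_of_mem_supp u.2 v.2))
  choose gC hgC hgs using hcomp
  set g : V → ℕ := fun x => gC (G.connectedComponentMk x) ⟨x, rfl⟩ with hg
  have hgx : ∀ (C : G.ConnectedComponent) (x : C), g x.1 = gC C x := by
    rintro C ⟨x, hx⟩
    have h1 : G.connectedComponentMk x = C := hx
    subst h1
    rfl
  have hgf : ∀ C : G.ConnectedComponent, (fun x : C => g x.1) = gC C := fun C => funext (hgx C)
  refine ⟨g, ⟨broadcast_of_comp fun C => ?_, bn_of_comp fun C => ?_, ?_⟩, ?_⟩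
  · rw [hgf C]; exact (hgC C).1
  · rw [hgf C]; exact (hgC C).2.1
  · intro h hh1 hh2 hle
    funext x
    have h1 := (hgC (G.connectedComponentMk x)).2.2 (fun y => h y.1) (broadcast_comp hh1 _)
      (bn_comp hh2 _) (fun y => by rw [← hgx]; exact hle y.1)
    exact congrFun h1 ⟨x, rfl⟩
  · rw [sum_comp G g, sum_comp G f]
    refine Finset.sum_le_sum (fun C _ => ?_)
    refine le_trans (le_of_eq ?_) (hgs C)
    exact Finset.sum_congr rfl (fun x _ => hgx C x)

end Pool.Agent.X275.BN
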