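import Pool.Agent.X275.BN.Basic

/-!
# Merging: a dominating function with the overlap property can be replaced by a maximal bn-independent
broadcast without raising the cost
-/

open SimpleGraph Finset

namespace Pool.Agent.X275.BN

variable {V : Type*} [Fintype V] [DecidableEq V]

/-- Merge the values at `u` and `v` at the vertex `c`. -/
def merge (f : V → ℕ) (u v c : V) : V → ℕ := fun x =>
  (if x = c then f u + f v else 0) + (if x = u ∨ x = v then 0 else f x)

lemma sum_merge (f : V → ℕ) {u v : V} (c : V) (huv : u ≠ v) :
    ∑ x, merge f u v c x = ∑ x, f x := by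
  have h : ∀ x, f x = (if x = u ∨ x = v then 0 else f x) + ((if x = u then f u else 0) +
      (if x = v then f v else 0)) := by
    intro x
    by_cases hx : x = u
    · subst hx; simp [huv]
    · by_cases hx' : x = v
      · subst hx'; simp [hx]
      · simp [hx, hx']
  have h2 : ∑ x, f x = ∑ x, (if x = u ∨ x = v then 0 else f x) + (f u + f v) := by
    conv_lhs => rw [Finset.sum_congr rfl (fun x _ => h x)]
    rw [Finset.sum_add_distrib, Finset.sum_add_distrib]
    simp
  rw [h2]
  simp only [merge, Finset.sum_add_distrib]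
  simp [add_comm]

lemma merge_support_card (f : V → ℕ) {u v c : V} (huv : u ≠ v) (hu : 0 < f u) (hv : 0 < f v) :
    #{x | 0 < merge f u v c x} < #{x | 0 < f x} := by
  have hsub : (univ.filter (fun x => 0 < merge f u v c x)) ⊆
      insert c (((univ.filter (fun x => 0 < f x)).erase u).erase v) := by
    intro x hx
    simp only [mem_filter, mem_univ, true_and] at hx
    by_cases hc : x = c
    · subst hc; exact mem_insert_self _ _
    · apply mem_insert_of_mem
      simp only [merge, hc, if_false, zero_add] at hx
      by_cases h : x = u ∨ x = v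
      · simp [h] at hx
      · rw [if_neg h] at hx
        push Not at h
        simp [h.1, h.2, hx]
  have h1 := (card_le_card hsub).trans (card_insert_le _ _)
  have h2 : #(((univ.filter (fun x => 0 < f x)).erase u).erase v) + 1
      = #((univ.filter (fun x => 0 < f x)).erase u) :=
    card_erase_add_one (by simp [huv.symm, hv])
  have h3 : #((univ.filter (fun x => 0 < f x)).erase u) + 1 = #(univ.filter (fun x => 0 < f x)) :=
    card_erase_add_one (by simp [hu])
  omega

omit [Fintype V] in
lemma merge_c (f : V → ℕ) (u v c : V) : f u + f v ≤ merge f u v c c := by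
  simp [merge]

omit [Fintype V] in
lemma le_merge (f : V → ℕ) {u v c x : V} (h1 : x ≠ u) (h2 : x ≠ v) : f x ≤ merge f u v c x := by
  simp [merge, h1, h2]

omit [Fintype V] in
/-- The merged function still dominates. -/
lemma merge_dom {G : SimpleGraph V} (hG : G.Connected) {f : V → ℕ} (hf : Dom G f) {u v c : V}
    (hu : 0 < f u) (h1 : G.dist c u ≤ f v) (h2 : G.dist c v ≤ f u) :
    Dom G (merge f u v c) := by
  intro x
  obtain ⟨w, hw, hd⟩ := hf x
  have hc := merge_c f u v c
  by_cases hwu : w = u
  · subst hwu
    refine ⟨c, by omega, ?_⟩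
    have := hG.dist_triangle (u := x) (v := w) (w := c)
    rw [G.dist_comm (u := w) (v := c)] at this
    omega
  · by_cases hwv : w = v
    · subst hwv
      refine ⟨c, by omega, ?_⟩
      have := hG.dist_triangle (u := x) (v := w) (w := c)
      rw [G.dist_comm (u := w) (v := c)] at this
      omega
    · have := le_merge f (c := c) hwu hwv
      exact ⟨w, by omega, by omega⟩

/-- The merged function has the overlap property. -/
lemma merge_ovl {G : SimpleGraph V} (hG : G.Connected) {f : V → ℕ} (hf : Ovl G f) {u v c : V}
    (huv : u ≠ v) (hu : 0 < f u) (hv : 0 < f v)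
    (hc : 0 < f c → c = u ∨ c = v)
    (h1 : G.dist c u ≤ f v) (h2 : G.dist c v ≤ f u)
    (h3 : (∃ z, z ≠ u ∧ z ≠ v ∧ 0 < f z) →
      ∃ z, z ≠ u ∧ z ≠ v ∧ 0 < f z ∧ G.dist c z ≤ f u + f v + f z) :
    Ovl G (merge f u v c) := by
  have hmc := merge_c f u v c
  intro y hy
  by_cases hyc : y = c
  · subst hyc
    by_cases hz : ∃ z, z ≠ u ∧ z ≠ v ∧ 0 < f z
    · obtain ⟨z, hz1, hz2, hz3, hz4⟩ := h3 hz
      left
      have hle := le_merge f (c := y) hz1 hz2
      refine ⟨z, ?_, by omega, by omega⟩
      rintro rfl
      rcases hc hz3 with h | h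
      · exact hz1 h
      · exact hz2 h
    · right
      push Not at hz
      intro w hw
      by_contra hwy
      simp only [merge, hwy, if_false, zero_add] at hw
      by_cases h : w = u ∨ w = v
      · simp [h] at hw
      · rw [if_neg h] at hw
        push Not at h
        have := hz w h.1 h.2
        omega
  · have hyuv : y ≠ u ∧ y ≠ v ∧ 0 < f y := by
      simp only [merge, hyc, if_false, zero_add] at hy
      by_cases h : y = u ∨ y = v
      · simp [h] at hy
      · rw [if_neg h] at hy
        push Not at h
        exact ⟨h.1, h.2, hy⟩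
    obtain ⟨hyu, hyv, hy0⟩ := hyuv
    have hley := le_merge f (c := c) hyu hyv
    left
    rcases hf y hy0 with ⟨w, hwy, hw0, hwd⟩ | hall
    · by_cases hwu : w = u
      · subst hwu
        refine ⟨c, fun h => hyc h.symm, by omega, ?_⟩
        have := hG.dist_triangle (u := y) (v := w) (w := c)
        rw [G.dist_comm (u := w) (v := c)] at this
        omega
      · by_cases hwv : w = v
        · subst hwv
          refine ⟨c, fun h => hyc h.symm, by omega, ?_⟩
          have := hG.dist_triangle (u := y) (v := w) (w := c)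
          rw [G.dist_comm (u := w) (v := c)] at this
          omega
        · have hle := le_merge f (c := c) hwu hwv
          exact ⟨w, hwy, by omega, by omega⟩
    · exact absurd (hall u hu) (fun h => hyu h.symm)

omit [DecidableEq V] in
/-- If there is a third broadcasting vertex, then one of them is close to `u` or `v`. -/
lemma exists_near {G : SimpleGraph V} (hG : G.Connected) {f : V → ℕ} (hf : Dom G f) {u v : V}
    (hz : ∃ z, z ≠ u ∧ z ≠ v ∧ 0 < f z) :
    ∃ z, z ≠ u ∧ z ≠ v ∧ 0 < f z ∧
      (G.dist u z ≤ f u + f z + 1 ∨ G.dist v z ≤ f v + f z + 1) := by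
  by_cases hS : ∀ x, G.dist x u ≤ f u ∨ G.dist x v ≤ f v
  · obtain ⟨z, h1, h2, h3⟩ := hz
    refine ⟨z, h1, h2, h3, ?_⟩
    rcases hS z with h | h
    · left; rw [G.dist_comm]; omega
    · right; rw [G.dist_comm]; omega
  · push Not at hS
    -- choose such a vertex with least distance to `u`
    classical
    have hex : ∃ n, ∃ x, G.dist u x = n ∧ f u < G.dist x u ∧ f v < G.dist x v := by
      obtain ⟨x, h1, h2⟩ := hS
      exact ⟨_, x, rfl, h1, h2⟩
    obtain ⟨x, hx0, hx1, hx2⟩ := Nat.find_spec hex
    have hmin := fun m (hm : m < Nat.find hex) => Nat.find_min hex hm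
    set N := Nat.find hex with hN
    have hpos : 0 < N := by rw [← hx0, G.dist_comm]; omega
    obtain ⟨a, ha1, ha2⟩ := exists_between hG u x (N - 1) (by omega)
    have hax : G.dist a x = 1 := by omega
    have hmin' := hmin (N - 1) (by omega)
    push Not at hmin'
    have ha3 := hmin' a ha1
    obtain ⟨z, hz0, hzd⟩ := hf x
    have hzu : z ≠ u := by rintro rfl; omega
    have hzv : z ≠ v := by rintro rfl; omega
    refine ⟨z, hzu, hzv, hz0, ?_⟩
    by_cases hau : G.dist a u ≤ f u
    · left
      have t1 := hG.dist_triangle (u := u) (v := a) (w := z)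
      have t2 := hG.dist_triangle (u := a) (v := x) (w := z)
      rw [G.dist_comm (u := u) (v := a)] at t1
      omega
    · right
      have hav := ha3 (by omega)
      have t1 := hG.dist_triangle (u := v) (v := a) (w := z)
      have t2 := hG.dist_triangle (u := a) (v := x) (w := z)
      rw [G.dist_comm (u := v) (v := a)] at t1
      omega

/-- A function which is dominating, has the overlap property, is bn-independent and has two
broadcasting vertices is a maximal bn-independent broadcast. -/
lemma maxBn_of {G : SimpleGraph V} (hG : G.Connected) [Nontrivial V] {f : V → ℕ} (hD : Dom G f)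
    (hO : Ovl G f) (hI : BnIndep G f) {u v : V} (huv : u ≠ v) (hu : 0 < f u) (hv : 0 < f v) :
    MaxBn G f := by
  refine ⟨⟨fun _ w => ?_, fun hs => absurd hs (not_subsingleton V)⟩, hI, ?_⟩
  · by_contra hlt
    push Not at hlt
    -- some other broadcasting vertex hears `w`
    have hw : 0 < f w := by omega
    obtain ⟨z, hzw, hz⟩ : ∃ z, z ≠ w ∧ 0 < f z := by
      by_cases h : u = w
      · exact ⟨v, fun h' => huv (h.trans h'.symm), hv⟩
      · exact ⟨u, h, hu⟩
    have h1 := dist_le_ecc G w z
    have h2 := hI z w z hzw.symm ⟨hw, by rw [G.dist_comm]; omega⟩ ⟨hz, by simp⟩ w hw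
    rw [G.dist_comm] at h2
    omega
  · intro g hg hgI hle
    by_contra hne
    obtain ⟨w, hw⟩ : ∃ w, g w ≠ f w := by
      by_contra h
      push Not at h
      exact hne (funext h)
    have hlt : f w < g w := lt_of_le_of_ne (hle w) (Ne.symm hw)
    by_cases hw0 : f w = 0
    · obtain ⟨a, ha, had⟩ := hD w
      have haw : a ≠ w := by rintro rfl; omega
      have h1 := hgI w a w haw ⟨ha.trans_le (hle a), had.trans (hle a)⟩ ⟨by omega, by simp⟩ w
        (by omega)
      simp at h1
      omega
    · rcases hO w (by omega) with ⟨z, hzw, hz, hzd⟩ | hall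
      · obtain ⟨x, hx1, hx2⟩ := exists_between hG w z (min (f w) (G.dist w z)) (min_le_right _ _)
        have h1 : G.dist x w ≤ f w := by rw [G.dist_comm, hx1]; exact min_le_left _ _
        have h2 : G.dist x z ≤ f z := by omega
        have h3 := hgI x w z hzw.symm ⟨by omega, by omega⟩
          ⟨hz.trans_le (hle z), h2.trans (hle z)⟩ w (by omega)
        omega
      · exact huv ((hall u hu).trans (hall v hv).symm)

/-- **Merging lemma.** From a dominating function with the overlap property we get a maximal
bn-independent broadcast of at most the same cost. -/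
lemma exists_maxBn {G : SimpleGraph V} (hG : G.Connected) [Nontrivial V] :
    ∀ (n : ℕ) (f : V → ℕ), #{x | 0 < f x} = n → Dom G f → Ovl G f →
      ∃ g : V → ℕ, MaxBn G g ∧ ∑ x, g x ≤ ∑ x, f x := by
  intro n
  induction n using Nat.strong_induction_on with
  | _ n ih =>
  intro f hn hD hO
  by_cases h2 : ∃ u v, u ≠ v ∧ 0 < f u ∧ 0 < f v
  swap
  · -- a single broadcasting vertex
    push Not at h2
    obtain ⟨u, hu, -⟩ := hD (Classical.arbitrary V)
    have hone : ∀ w, 0 < f w → w = u := by
      intro w hw
      by_contra h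
      have := h2 w u h hw
      omega
    have hecc : ecc G u ≤ f u := by
      refine ecc_le (fun x => ?_)
      obtain ⟨w, hw, hd⟩ := hD x
      rw [hone w hw] at hd
      rwa [G.dist_comm]
    have hecc0 : 0 < ecc G u := by
      obtain ⟨y, hy⟩ := exists_ne u
      exact (hG.pos_dist_of_ne hy.symm).trans_le (dist_le_ecc G u y)
    refine ⟨Pi.single u (ecc G u), ⟨⟨fun _ v => ?_, fun hs => absurd hs (not_subsingleton V)⟩, ?_, ?_⟩,
      ?_⟩
    · by_cases hv : v = u
      · subst hv; simp
      · simp [Pi.single_eq_of_ne hv]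
    · intro x a b hab ha hb
      exfalso
      have ha' : a = u := by
        by_contra h
        have := ha.1
        simp [Pi.single_eq_of_ne h] at this
      have hb' : b = u := by
        by_contra h
        have := hb.1
        simp [Pi.single_eq_of_ne h] at this
      exact hab (ha'.trans hb'.symm)
    · intro g hg hgI hle
      funext w
      have hgu : g u = ecc G u := by
        apply le_antisymm (hg.1 inferInstance u)
        have := hle u
        simpa using this
      by_cases hw : w = u
      · subst hw; simp [hgu]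
      · rw [Pi.single_eq_of_ne hw]
        by_contra h
        have h1 := hgI w w u hw ⟨Nat.pos_of_ne_zero h, by simp⟩
          ⟨by omega, by rw [G.dist_comm, hgu]; exact dist_le_ecc G u w⟩ w (Nat.pos_of_ne_zero h)
        simp at h1
        exact h h1
    · calc ∑ x, (Pi.single u (ecc G u) : V → ℕ) x = ecc G u := by
            simp [Pi.single_apply]
        _ ≤ f u := hecc
        _ ≤ ∑ x, f x := Finset.single_le_sum (f := f) (fun _ _ => Nat.zero_le _) (mem_univ u)
  · by_cases hI : BnIndep G f
    · obtain ⟨u, v, huv, hu, hv⟩ := h2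
      exact ⟨f, maxBn_of hG hD hO hI huv hu hv, le_rfl⟩
    · -- it is enough to find a merge
      suffices hm : ∃ u v c, u ≠ v ∧ 0 < f u ∧ 0 < f v ∧ (0 < f c → c = u ∨ c = v) ∧
          G.dist c u ≤ f v ∧ G.dist c v ≤ f u ∧ ((∃ z, z ≠ u ∧ z ≠ v ∧ 0 < f z) →
            ∃ z, z ≠ u ∧ z ≠ v ∧ 0 < f z ∧ G.dist c z ≤ f u + f v + f z) by
        obtain ⟨u, v, c, huv, hu, hv, hc, h1, h2', h3⟩ := hm
        obtain ⟨g, hg, hgs⟩ := ih _ (hn ▸ merge_support_card f (c := c) huv hu hv)
          (merge f u v c) rfl (merge_dom hG hD hu h1 h2') (merge_ovl hG hO huv hu hv hc h1 h2' h3)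
        exact ⟨g, hg, hgs.trans (sum_merge f c huv).le⟩
      by_cases hA : ∃ u v, u ≠ v ∧ 0 < f u ∧ 0 < f v ∧ G.dist u v < f u
      · obtain ⟨u, v, huv, hu, hv, hd⟩ := hA
        refine ⟨u, v, u, huv, hu, hv, fun _ => Or.inl rfl, by simp, hd.le, fun hz => ?_⟩
        obtain ⟨z, hz1, hz2, hz3, hz4⟩ := exists_near hG hD hz
        refine ⟨z, hz1, hz2, hz3, ?_⟩
        rcases hz4 with h | h
        · omega
        · have := hG.dist_triangle (u := u) (v := v) (w := z)
          omega
      · push Not at hA
        -- a slack pair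
        have hslack : ∃ u v, u ≠ v ∧ 0 < f u ∧ 0 < f v ∧ G.dist u v + 1 ≤ f u + f v := by
          simp only [BnIndep, not_forall] at hI
          obtain ⟨x, a, b, hab, ha, hb, w, hw, hlt⟩ := hI
          push Not at hlt
          have hcase : ∀ a, a ≠ w → Hears G f x a → ∃ u v, u ≠ v ∧ 0 < f u ∧ 0 < f v ∧
              G.dist u v + 1 ≤ f u + f v := by
            intro a haw ha
            refine ⟨a, w, haw, ha.1, hw, ?_⟩
            have h1 := hG.dist_triangle (u := a) (v := x) (w := w)
            rw [G.dist_comm (u := a) (v := x)] at h1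
            have h3 := ha.2
            omega
          by_cases haw : a = w
          · exact hcase b (fun h => hab (haw.trans h.symm)) hb
          · exact hcase a haw ha
        obtain ⟨u, v, huv, hu, hv, hd⟩ := hslack
        -- the merge at a vertex at distance `f v - 1` from `u`
        have hmain : ∀ u v, u ≠ v → 0 < f u → 0 < f v → G.dist u v + 1 ≤ f u + f v →
            ((∃ z, z ≠ u ∧ z ≠ v ∧ 0 < f z) → ∃ z, z ≠ u ∧ z ≠ v ∧ 0 < f z ∧
              G.dist u z ≤ f u + f z + 1) →
            ∃ u v c, u ≠ v ∧ 0 < f u ∧ 0 < f v ∧ (0 < f c → c = u ∨ c = v) ∧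
          G.dist c u ≤ f v ∧ G.dist c v ≤ f u ∧ ((∃ z, z ≠ u ∧ z ≠ v ∧ 0 < f z) →
            ∃ z, z ≠ u ∧ z ≠ v ∧ 0 < f z ∧ G.dist c z ≤ f u + f v + f z) := by
          intro u v huv hu hv hd hz
          have hvu := hA v u huv.symm hv hu
          rw [G.dist_comm] at hvu
          obtain ⟨c, hc1, hc2⟩ := exists_between hG u v (f v - 1) (by omega)
          refine ⟨u, v, c, huv, hu, hv, ?_, ?_, by omega, ?_⟩
          · intro hc
            by_contra hcon
            push Not at hcon
            have t1 := hA u c (fun h => hcon.1 h.symm) hu hc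
            have t2 := hA v c (fun h => hcon.2 h.symm) hv hc
            rw [G.dist_comm (u := v) (v := c)] at t2
            omega
          · rw [G.dist_comm]; omega
          · intro hz'
            obtain ⟨z, hz1, hz2, hz3, hz4⟩ := hz hz'
            refine ⟨z, hz1, hz2, hz3, ?_⟩
            have := hG.dist_triangle (u := c) (v := u) (w := z)
            rw [G.dist_comm (u := c) (v := u)] at this
            omega
        by_cases hz : ∃ z, z ≠ u ∧ z ≠ v ∧ 0 < f z
        · obtain ⟨z, hz1, hz2, hz3, hz4⟩ := exists_near hG hD hz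
          rcases hz4 with h | h
          · exact hmain u v huv hu hv hd (fun _ => ⟨z, hz1, hz2, hz3, h⟩)
          · exact hmain v u huv.symm hv hu (by rw [G.dist_comm]; omega)
              (fun _ => ⟨z, hz2, hz1, hz3, h⟩)
        · exact hmain u v huv hu hv hd (fun h => absurd h hz)

end Pool.Agent.X275.BN
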