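import Pool.Agent.X275.BN.Merge

/-!
# A spanning tree which keeps domination and overlap
-/

open SimpleGraph Finset

namespace Pool.Agent.X275.BN

/-- A graph in which every vertex has at most one neighbour of rank at most its own rank is acyclic. -/
lemma acyclic_of_rank {V : Type*} (F : SimpleGraph V) (r : V → ℕ) (p : V → V)
    (h : ∀ x y, F.Adj x y → r y ≤ r x → y = p x) : F.IsAcyclic := by
  intro a c hc
  classical
  -- a vertex of the cycle of largest rank
  obtain ⟨m, hm, hmax⟩ := Finset.exists_max_image c.support.toFinset r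
    ⟨a, by simp⟩
  simp only [List.mem_toFinset] at hm hmax
  have hc' := hc.rotate hm
  have hne := hc'.snd_ne_penultimate
  have hnil : ¬ (c.rotate m hm).Nil := hc'.not_nil
  have h1 : F.Adj m (c.rotate m hm).snd := Walk.adj_snd hnil
  have h2 : F.Adj (c.rotate m hm).penultimate m := Walk.adj_penultimate hnil
  have hs : ∀ x, x ∈ (c.rotate m hm).support → r x ≤ r m := by
    intro x hx
    apply hmax
    exact (Walk.mem_support_rotate_iff c m hm).1 hx
  apply hne
  rw [h m _ h1 (hs _ (Walk.getVert_mem_support _ _)),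
    h m _ h2.symm (hs _ (Walk.getVert_mem_support _ _))]


variable {V : Type*} [Fintype V] [DecidableEq V]

omit [Fintype V] [DecidableEq V] in
/-- There is a spanning tree on which a bn-independent dominating function with the overlap property
keeps domination and overlap. -/
lemma exists_tree {G : SimpleGraph V} (hG : G.Connected) {f : V → ℕ} (hD : Dom G f)
    (hO : Ovl G f) (hI : BnIndep G f) : ∃ T ≤ G, T.IsTree ∧ Dom T f ∧ Ovl T f := by
  classical
  -- owners
  have hown : ∀ x, ∃ u, Hears G f x u ∧ (0 < f x → u = x) := by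
    intro x
    by_cases hx : 0 < f x
    · exact ⟨x, ⟨hx, by simp⟩, fun _ => rfl⟩
    · obtain ⟨u, hu⟩ := hD x
      exact ⟨u, hu, fun h => absurd h hx⟩
  choose o ho ho' using hown
  -- parents
  have hpar : ∀ x v, ∃ y, x ≠ v → G.Adj x y ∧ G.dist y v + 1 = G.dist x v := by
    intro x v
    by_cases hxv : x = v
    · exact ⟨x, fun h => absurd hxv h⟩
    · obtain ⟨y, hy1, hy2⟩ := exists_between hG x v 1 (hG.pos_dist_of_ne hxv)
      exact ⟨y, fun _ => ⟨dist_eq_one_iff_adj.1 hy1, hy2⟩⟩
  choose q hq using hpar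
  have hqo : ∀ x v, Hears G f x v → x ≠ v → o (q x v) = v := by
    intro x v hx hxv
    by_contra hne
    have h1 := (hq x v hxv).2
    have h2 := hx.2
    have h3 := hI (q x v) (o (q x v)) v hne (ho _) ⟨hx.1, by omega⟩ v hx.1
    omega
  set rank : V → ℕ := fun x => G.dist x (o x) with hrank
  set p : V → V := fun x => q x (o x) with hp
  have hpo : ∀ x, x ≠ o x → o (p x) = o x := fun x hx => hqo x (o x) (ho x) hx
  have hpr : ∀ x, x ≠ o x → rank (p x) + 1 = rank x := by
    intro x hx
    have := (hq x (o x) hx).2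
    simp only [hrank]
    rw [hpo x hx]
    exact this
  have hpa : ∀ x, x ≠ o x → G.Adj x (p x) := fun x hx => (hq x (o x) hx).1
  have hrf : ∀ x, rank x ≤ f (o x) := fun x => (ho x).2
  have hhv : ∀ x v, Hears G f x v → v ≠ o x → x ≠ v := by
    rintro x v hx hv rfl
    exact hv (ho' x hx.1).symm
  -- the forest
  let F : SimpleGraph V := SimpleGraph.fromRel (fun x y => x ≠ o x ∧ y = p x)
  let H : SimpleGraph V := SimpleGraph.fromRel (fun x y => (x ≠ o x ∧ y = p x) ∨
    (∃ v, Hears G f x v ∧ v ≠ o x ∧ y = q x v))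
  have hFadj : ∀ x, x ≠ o x → F.Adj x (p x) := by
    intro x hx
    rw [SimpleGraph.fromRel_adj]
    exact ⟨(hpa x hx).ne, Or.inl ⟨hx, rfl⟩⟩
  have hFac : F.IsAcyclic := by
    apply acyclic_of_rank F rank p
    intro x y hxy hr
    rw [SimpleGraph.fromRel_adj] at hxy
    rcases hxy.2 with ⟨-, h⟩ | ⟨h1, h2⟩
    · exact h
    · have := hpr y h1
      rw [← h2] at this
      omega
  have hFH : F ≤ H := by
    intro x y hxy
    rw [SimpleGraph.fromRel_adj] at hxy ⊢
    exact ⟨hxy.1, hxy.2.imp Or.inl Or.inl⟩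
  have hrel : ∀ x y, ((x ≠ o x ∧ y = p x) ∨ (∃ v, Hears G f x v ∧ v ≠ o x ∧ y = q x v)) →
      G.Adj x y := by
    rintro x y (⟨h1, rfl⟩ | ⟨v, h1, h2, rfl⟩)
    · exact hpa x h1
    · exact (hq x v (hhv x v h1 h2)).1
  have hHG : H ≤ G := by
    intro x y hxy
    rw [SimpleGraph.fromRel_adj] at hxy
    rcases hxy.2 with h | h
    · exact hrel x y h
    · exact (hrel y x h).symm
  obtain ⟨T₁, hFT, hTH, hT1, hreach⟩ :=
    H.exists_isAcyclic_reachable_eq_le_of_le_of_isAcyclic hFH hFac
  obtain ⟨T, hT1T, hTG, hT⟩ := hG.exists_isTree_le_of_le_of_isAcyclic (hTH.trans hHG) hT1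
  have hTc : T.Connected := hT.1
  refine ⟨T, hTG, hT, ?_⟩
  -- distances to the owners
  have hTd : ∀ n x, rank x = n → T.dist x (o x) ≤ n := by
    intro n
    induction n with
    | zero =>
      intro x hx
      have h0 : x = o x := (hG.dist_eq_zero_iff).1 hx
      rw [← h0]; simp
    | succ n ih =>
      intro x hx
      have hne : x ≠ o x := by
        intro h
        have : rank x = 0 := by simp only [hrank]; rw [← h]; simp
        omega
      have h1 : rank (p x) = n := by have := hpr x hne; omega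
      have h2 := ih (p x) h1
      rw [hpo x hne] at h2
      have h3 : T.dist x (p x) = 1 := dist_eq_one_iff_adj.2 (hT1T (hFT (hFadj x hne)))
      have h4 := hTc.dist_triangle (u := x) (v := p x) (w := o x)
      omega
  have hTd' : ∀ x, T.dist x (o x) ≤ rank x := fun x => hTd _ x rfl
  have hFR : ∀ n x, rank x = n → F.Reachable x (o x) := by
    intro n
    induction n with
    | zero =>
      intro x hx
      have h0 : x = o x := (hG.dist_eq_zero_iff).1 hx
      rw [← h0]
    | succ n ih =>
      intro x hx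
      have hne : x ≠ o x := by
        intro h
        have : rank x = 0 := by simp only [hrank]; rw [← h]; simp
        omega
      have h1 : rank (p x) = n := by have := hpr x hne; omega
      have h2 := ih (p x) h1
      rw [hpo x hne] at h2
      exact (hFadj x hne).reachable.trans h2
  have hHR : ∀ x, H.Reachable x (o x) := fun x => (hFR _ x rfl).mono hFH
  have hedge : ∀ s t, T.Adj s t → T.dist (o s) (o t) ≤ rank s + 1 + rank t := by
    intro s t hst
    have h1 := hTc.dist_triangle (u := o s) (v := s) (w := o t)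
    have h2 := hTc.dist_triangle (u := s) (v := t) (w := o t)
    have h3 : T.dist s t = 1 := dist_eq_one_iff_adj.2 hst
    have h4 := hTd' s
    have h5 := hTd' t
    rw [T.dist_comm (u := o s) (v := s)] at h1
    omega
  refine ⟨fun x => ⟨o x, (ho x).1, (hTd' x).trans (hrf x)⟩, ?_⟩
  intro u hu
  rcases hO u hu with ⟨v, hvu, hv, hd⟩ | hall
  swap
  · exact Or.inr hall
  left
  have hou : o u = u := ho' u hu
  obtain ⟨x, hx1, hx2⟩ := exists_between hG u v (min (f u) (G.dist u v)) (min_le_right _ _)
  have hxu : Hears G f x u := ⟨hu, by rw [G.dist_comm, hx1]; exact min_le_left _ _⟩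
  have hxv : Hears G f x v := ⟨hv, by omega⟩
  have hex : ∃ u', 0 < f u' ∧ u' ≠ u ∧ H.Reachable u u' := by
    by_cases hox : o x = u
    · have hvo : v ≠ o x := by rw [hox]; exact hvu
      have hxv' := hhv x v hxv hvo
      have hadj : H.Adj x (q x v) := by
        rw [SimpleGraph.fromRel_adj]
        exact ⟨(hq x v hxv').1.ne, Or.inl (Or.inr ⟨v, hxv, hvo, rfl⟩)⟩
      refine ⟨v, hv, hvu, ?_⟩
      have h1 := hHR x
      rw [hox] at h1
      have h2 := hHR (q x v)
      rw [hqo x v hxv hxv'] at h2
      exact h1.symm.trans (hadj.reachable.trans h2)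
    · have huo : u ≠ o x := fun h => hox h.symm
      have hxu' := hhv x u hxu huo
      have hadj : H.Adj x (q x u) := by
        rw [SimpleGraph.fromRel_adj]
        exact ⟨(hq x u hxu').1.ne, Or.inl (Or.inr ⟨u, hxu, huo, rfl⟩)⟩
      refine ⟨o x, (ho x).1, hox, ?_⟩
      have h2 := hHR (q x u)
      rw [hqo x u hxu hxu'] at h2
      exact h2.symm.trans (hadj.symm.reachable.trans (hHR x))
  obtain ⟨u', hu', hne, hr⟩ := hex
  rw [← hreach] at hr
  obtain ⟨w⟩ := hr
  obtain ⟨⟨⟨s, t⟩, hst⟩, -, hs, ht⟩ := w.exists_boundary_dart {x | o x = u} hou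
    (by rw [Set.mem_setOf_eq, ho' u' hu']; exact hne)
  simp only [Set.mem_setOf_eq] at hs ht
  have hst' : T₁.Adj s t := hst
  have hbound := hedge s t (hT1T hst')
  have hHst := hTH hst'
  rw [SimpleGraph.fromRel_adj] at hHst
  rcases hHst.2 with (⟨h1, h2⟩ | ⟨v', h1, h2, h3⟩) | (⟨h1, h2⟩ | ⟨v', h1, h2, h3⟩)
  · exact absurd (by rw [h2, hpo s h1, hs]) ht
  · have hsv := hhv s v' h1 h2
    have hot : o t = v' := by rw [h3]; exact hqo s v' h1 hsv
    have h4 := (hq s v' hsv).2
    rw [← h3, ← hot] at h4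
    have h5 := h1.2
    rw [← hot] at h5
    have h6 := hrf s
    rw [hs] at h6 hbound
    refine ⟨o t, ht, (ho t).1, ?_⟩
    have h7 : rank t = G.dist t (o t) := rfl
    omega
  · exact absurd (by rw [← hs, h2, hpo t h1]) ht
  · have htv := hhv t v' h1 h2
    have hos : o s = v' := by rw [h3]; exact hqo t v' h1 htv
    have hvu' : v' = u := by rw [← hos, hs]
    have h4 := (hq t v' htv).2
    rw [← h3, hvu'] at h4
    have h5 := h1.2
    rw [hvu'] at h5
    have h6 := hrf t
    have h7 : rank s = G.dist s u := by simp only [hrank]; rw [hs]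
    rw [hs] at hbound
    exact ⟨o t, ht, (ho t).1, by omega⟩

end Pool.Agent.X275.BN
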